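import Pool.Agent.Results.MP_9ab903_nt.ThreePartCubicTwists
import Pool.Agent.Results.MP_f50388_nt.CubicExtensions
import Pool.Agent.U693.X49.EisK

/-!
# The curve `y² + y = x³` over the cubic extensions `K(∛D)`, `D` a product of primes from ARBITRARY sets of
# primes

`K` is the field of third roots of unity and `E` is the curve `y² + y = x³` over `ℚ`. The class: `D` in
`𝓞 K` squarefree, `≡ 1 mod 3`, of norm not `≡ 1 mod 9`. For such a `D` let `F = K(θ)`, `θ³ = D`, a cyclic
cubic extension of `K` ramified at all the primes dividing `D`. `AllZero D` says, for ALL such `F`: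
`L(E/F, s)` is entire with `L(E/F, 1) ≠ 0`, `E(F)` is finite (so both the analytic rank and the rank are
`0`), `3` kills `Ш(E/F)[3^∞]`, and `E(F)` has order `9` if `D ≠ -2`.

Let `D` be good: in the class, with `E_D(K)` finite and `Ш(E_D/K)[3^∞] = 0` for the cubic twist
`E_D : y² + D y = x³`; for instance `D` any prime `≡ 1 mod 3` of norm not `≡ 1 mod 9`. Then `AllZero D`.

* FINITE SETS: let `3 ∣ k` and `S` ANY finite set of primary primes modulo which `D` is not a cube, with
  at least `N = 3 ^ (3 k + ω(D) + 1)` elements. Then `D ∏ A` is good, and `AllZero (D ∏ A)`, for at least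
  `(|S| choose k) / (N choose k)` of the `k`-subsets `A` of `S`.
* INFINITE SETS: let `S` be ANY infinite set of primary primes. There is an infinite `T ⊆ S` such that
  `D ∏ A` is good and `AllZero (D ∏ A)` for ALL finite subsets `A` of `T` with a number of elements
  divisible by `3`, if and only if `D` is not a cube modulo infinitely many primes of `S`. In other words:
  every infinite set of primary primes modulo which `D` is not a cube contains an infinite subset `T` such
  that the rank part of the conjecture holds, with rank `0`, for `E` over the fields `K(∛(D ∏ A))` for ALL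
  those subsets `A` of `T`.

Proof: the criterion for one `D` (the Laplacian over `𝔽₃` of the cubic residue symbols of the primes of `D`
has only the constants in its kernel) is from the starting files `CubicExtensions` and
`MP_9ab903_nt/ThreePartCubicTwists`. New: extension of such a Laplacian by a homogeneous set of primes with
a number of elements divisible by `3`, with the theorem of Ramsey for three colours (`Pool/Agent/U693/X49`).
-/

set_option autoImplicit false

open scoped Classical
open NumberField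

namespace Pool.Agent.Results.MP_f50388_nt.CubicFieldsArbitraryPrimeSets

open Pool.Agent.Results.MP_9ab903_nt.ThreePartCubicTwists (InClass FiniteAndTrivial)
open Pool.Agent.Results.MP_f50388_nt.CubicExtensions (RankZero)

variable {K : Type} [Field K] [NumberField K]

/-- prime elements `≡ 1 mod 3`; every prime element prime to `3` has exactly one such associate -/
def PrimaryPrime (q : 𝓞 K) : Prop := Prime q ∧ (3 : 𝓞 K) ∣ q - 1

/-- `a` is a cube modulo `q` -/
def CubeMod (q a : 𝓞 K) : Prop := ∃ b : 𝓞 K, q ∣ a - b ^ 3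

/-- the number of the primary primes dividing `D` -/
noncomputable def omega (D : 𝓞 K) : ℕ := {q : 𝓞 K | PrimaryPrime q ∧ q ∣ D}.ncard

/-- `D` is squarefree, `≡ 1 mod 3`, of norm not `≡ 1 mod 9`, and `E_D(K)` is finite,
`Ш(E_D/K)[3^∞] = 0` for `E_D : y² + D y = x³` -/
def Good (D : 𝓞 K) : Prop := InClass D ∧ FiniteAndTrivial D

/-- For all the cubic extensions `F = K(θ)`, `θ³ = D`, of `K` and `E : y² + y = x³`: `L(E/F, s)` is entire
and not zero at `s = 1`, `E(F)` is finite, `Ш(E/F)[3^∞]` is killed by `3`, and `E(F)` has order `9` if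
`D ≠ -2`. -/
def AllZero (D : 𝓞 K) : Prop :=
  ∀ (F : Type) [Field F] [NumberField F] [Algebra K F] (θ : F),
    Module.finrank K F = 3 → θ ^ 3 = algebraMap K F D → RankZero F ∧
      (D ≠ -2 → Nat.card (Pool.Agent.Results.MP_f50388_nt.CubicExtensions.curve F).toAffine.Point = 9)

theorem zero_of [IsCyclotomicExtension {3} ℚ K] {D : 𝓞 K} (h : Good D) : AllZero D := by
  intro F _ _ _ θ hF hθ
  obtain ⟨⟨ω, n, π, χ, hω, hf⟩, hcr⟩ :=
    ((Pool.Agent.Results.MP_9ab903_nt.ThreePartCubicTwists.result K).2.1 D h.1).2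
  have h1 := (hcr ω n π χ hω hf).1 h.2
  exact (((Pool.Agent.Results.MP_f50388_nt.CubicExtensions.result K).2.1 D h.1).2.2 F θ hF hθ).2
    ω n π χ hω hf h1

theorem good_iff [IsCyclotomicExtension {3} ℚ K] (D : 𝓞 K) :
    Good D ∧ AllZero D ↔ Pool.Agent.U693.EisK.Gd3 D :=
  ⟨fun h => h.1, fun h => ⟨h, zero_of h⟩⟩

theorem result (K : Type) [Field K] [NumberField K] [IsCyclotomicExtension {3} ℚ K] :
    (∀ q : 𝓞 K, PrimaryPrime q → ¬ (9 : ℤ) ∣ Algebra.norm ℤ q - 1 → Good q ∧ AllZero q) ∧
    ∀ D : 𝓞 K, Good D →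
      -- finite sets
      (∀ (k : ℕ) (S : Finset (𝓞 K)), 3 ∣ k → (∀ q ∈ S, PrimaryPrime q ∧ ¬ CubeMod q D) →
        3 ^ (3 * k + omega D + 1) ≤ S.card →
        S.card.choose k ≤ (3 ^ (3 * k + omega D + 1)).choose k *
          ((S.powersetCard k).filter fun A =>
            Good (D * ∏ q ∈ A, q) ∧ AllZero (D * ∏ q ∈ A, q)).card) ∧
      -- infinite sets
      (∀ S : Set (𝓞 K), (∀ q ∈ S, PrimaryPrime q) →
        ((∃ T ⊆ S, T.Infinite ∧ ∀ A : Finset (𝓞 K), (A : Set (𝓞 K)) ⊆ T → 3 ∣ A.card →
          Good (D * ∏ q ∈ A, q) ∧ AllZero (D * ∏ q ∈ A, q)) ↔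
            {q ∈ S | ¬ CubeMod q D}.Infinite)) := by
  obtain ⟨⟨j, hj⟩, -⟩ := Pool.Agent.Y455.CTK.jex K
  refine ⟨fun q hq hN => (good_iff q).2 (Pool.Agent.U693.EisK.prime_K j hj hq hN),
    fun D hD => ⟨fun k S hk hS hc => ?_, fun S hS => ?_⟩⟩
  · simp only [good_iff]
    exact Pool.Agent.U693.EisK.fin_K j hj hD hk S hS hc
  · simp only [good_iff]
    exact Pool.Agent.U693.EisK.inf_K j hj hD S hS

end Pool.Agent.Results.MP_f50388_nt.CubicFieldsArbitraryPrimeSets
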