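import Pool.Agent.U972.Z.RkC

/-!
# Rank bounds, and the rank part and the 3-part of the conjecture of Birch and Swinnerton-Dyer, for
# `y² + y = x³` over the cyclic extensions of `K = ℚ(√-3)` of all degrees `3 ^ k`

`K = ℚ(ω)`, `E : y² + y = x³`, `k ≥ 1`. Let `π j`, `j < m`, be `m ≥ 1` different Eisenstein primes, `1`
modulo `3`, with norm `1` modulo `3 ^ (k + 1)`, and `e j ∈ {1, 2}` types for them, such that
`D = ∏ j, π j ^ e j` is not `1` modulo `9` (`Good`). For `l ≤ k`, a character modulo `π j` of exact order
`3 ^ l` has the type `e j` if its power with the exponent `3 ^ (l - 1)` is the `e j`-th power of the cubic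
residue symbol. Let `χ` be a product of such characters and `F` the extension of `K` that belongs to `χ`:
it is cyclic of degree `3 ^ l`, a number field of degree `2 * 3 ^ l` with `3 ^ l` complex places, in
general not Galois over `ℚ`; its cubic subextension is `K(∛D)`, and it is `F` for `l = 1`. Let
`n = nul π e ≥ 1` be the nullity over `𝔽₃` of the matrix `x ↦ (∑ i, e i (π i / π j) (x i - x j))_j`.

* **For ALL these fields `F`, `1 ≤ l ≤ k`, the rank of `E(F)` is at most `2 (3 ^ l - 1) (n - 1)`**
  (`RankBound`); for `l = 1` this is also stated for the fields `K(∛D)` directly (`RankBoundC`).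
* **If `n = 1`, then for all these fields (`Fields`):** `L(E/F, s)`, the product of the
  `L`-functions of the Hecke characters `ψ χ ^ t` and of their conjugates, `t < 3 ^ l`, is entire and
  `L(E/F, 1) ≠ 0`, and `E(F)` is finite: the rank part of the conjecture holds for `E/F`, with rank `0`.
  More exactly: `L(E/F, 1) = Ω ^ (2 * 3 ^ l) * 3 ^ (2 l (m - 1)) / 27` up to a unit above `3`;
  `[F : ℚ] = 2 * 3 ^ l`; `E(F)` has order `9`; `Ш(E/F)` has exactly `3 ^ (2 (m - 1))` elements that are
  killed by `3`; `3 ^ l` kills its `3`-primary part, whose order divides `3 ^ (2 l (m - 1))` (`ConclN`).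
  For `l = 1` the order of `Ш(E/F)[3^∞]` is exactly `3 ^ (2 (m - 1))`; here `F = K(∛D)`, and the
  statement on `E(F)` and `Ш(E/F)` is also stated directly for this field (`ConclC`).
* **How often: tuples from arbitrary sets.** Let `C 0, …, C (m - 1)` be ANY finite sets of at most `s`
  admissible primes of norm at most `X`, and `e` a type. Among the tuples of different primes
  `π j ∈ C j` with `D` not `1` modulo `9` (`NotOne`) the number `n - 1` has the distribution of the
  corank of a random symmetric `(m - 1) × (m - 1)` matrix over `𝔽₃`, up to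
  `42 * 3 ^ (m * (m + 3) / 2) * √X * s ^ (m - 3 / 4)`, which is smaller than `s ^ m` by a
  power of `X` if `s ≥ X ^ (2 / 3 + η)`. So `n = 1` has the share
  `∏_{i < ⌊m / 2⌋} (1 - 3 ^ (-(2 i + 1)))`, greater than `0.6390` for all `m`, and the mean of
  `3 ^ (n - 1)` is `2 - 3 ^ (1 - m)`: the mean of `3 ^ (rank E(F) / (2 (3 ^ l - 1)))` is at most `2`, up to
  `3 ^ m` times the error.
* **How often: new primes.** Given is a family, finite or infinite, of members `(π i, e i)`, `m i ≥ 0`
  primes with types, all primes different, nothing else is assumed on the members; and a class `r = 1`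
  modulo `3 √-3`. Let `ρ` run through the new primes: `ρ = r` modulo `9`, and its norm is `1` modulo
  `3 ^ (k + 1)` (one third of these primes). If `∏ j, π i j ^ e i j * r ^ t` is not `1` modulo `9`, then
  the member with the new prime, with the type `t`, is `Good`, and `n - 1` is the `t`-th entry of
  `pairAt (π i) (e i) ρ`. The members are independent: for finite sets `I` of members and sets `S i` of
  pairs, the share of the new primes with `pairAt (π i) (e i) ρ ∈ S i` for all `i ∈ I` tends to
  `∏_{i ∈ I} κ_i (S i)`, where `κ_i` is the distribution of the pair of the nullities of `L_i - diag u`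
  and `L_i + diag u`, `L_i` the matrix of the member, for a random vector `u`. The probability of
  `n = 1` is at least `(2 / 3) ^ m i` for each type, and at least `3 ^ (-m i)` for both types together. If
  the sum of the `κ_i (S i)` diverges (for example, for infinitely many members with a bounded number of
  primes), then for every `N` all new primes but a set of density zero have
  `pairAt (π i) (e i) ρ ∈ S i` for at least `N` members.

So every member, with any number of primes, becomes one with `n = 1` if one new prime is added, a prime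
from an explicit set of positive density; in particular `Ш(E/F)` contains `(ℤ / 3) ^ (2 m_i)` for
arbitrarily large `m_i`, for every `k`.

**The 3-part of the formula.** (This paragraph is not formalized.) The curve has good reduction outside
of `3`; `F` has one place above `3`, unramified over `K`, there the equation is minimal, of type IV, and
the Tamagawa number is `3`, so that `C_{E/F} = 3`; `Ω_{E/F} = (√3 Ω ^ 2) ^ (3 ^ l)` and
`√|Disc F| = 3 ^ (3 ^ l / 2)` up to units above `3`. So the formula of the problem says that
`#Ш(E/F) = L(E/F, 1) * √|Disc F| * 9 ^ 2 / (3 Ω_{E/F})`, which is `3 ^ (2 l (m - 1))` up to a unit above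
`3`. For `l = 1` this is exactly what is proved: the 3-part of the formula holds. For `l ≥ 2` the proved
bound for `#Ш(E/F)[3^∞]` is the value of the formula.

The definitions are in `Pool.Agent.Y715.T.St`, `Pool.Agent.U972.TP.St`, `Pool.Agent.U972.K1.StN`,
`Pool.Agent.U972.Y.St`, `Pool.Agent.U972.Z.St` and `Pool.Agent.U972.Z.StF`.
-/

set_option autoImplicit false

open Pool.Agent.Y715.T.St Pool.Agent.U972.TP.St Pool.Agent.U972.Y.St Pool.Agent.U972.Z.St
open Pool.Agent.U972.Z.StF Filter Topology
open scoped Classical

/-- **The rank, and the rank part and the 3-part of the formula for `E` over cyclic extensions of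
`K`.** -/
theorem Pool.Agent.Results.MP_f50388_nt.CyclicExtensionsPrimeSets.result (k : ℕ) (hk : 1 ≤ k) :
    -- the fields
    (∀ (m : ℕ) (π : Fin m → Eis) (e : Fin m → ZMod 3), Good k π e →
      RankBound k π e ∧ RankBoundC π e ∧ (nul π e = 1 → Fields k π e)) ∧
    -- the tuples of primes from arbitrary sets
    (∀ m X s : ℕ, 1 ≤ m → 1 ≤ X → 1 ≤ s → ∀ C : Fin m → Finset Eis,
      (∀ i, ∀ p ∈ C i, Adm k p ∧ nrm p ≤ X) → (∀ i, (C i).card ≤ s) → ∀ e : Fin m → (ZMod 3)ˣ,
        TupleLaw m X s C e) ∧
    -- the members of a family, and the class of the new primes modulo `9`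
    ∀ (ι : Type) (m : ι → ℕ) (π : ∀ i, Fin (m i) → Eis) (e : ∀ i, Fin (m i) → ZMod 3),
      (∀ i j, Adm k (π i j)) → (∀ i j, e i j ≠ 0) →
      (Function.Injective fun x : Σ i, Fin (m i) => π x.1 x.2) →
      ∀ r : Eis, (3 * ⟨1, 2⟩ : Eis) ∣ r - 1 →
      -- the members with a new prime
      (∀ ρ, New k r ρ → ∀ i, (∀ j, ρ ≠ π i j) → ∀ t : ZMod 3, t ≠ 0 →
        ¬ (9 : Eis) ∣ (∏ j, π i j ^ (e i j).val) * r ^ t.val - 1 →
        Good k (Fin.snoc (π i) ρ : Fin (m i + 1) → Eis) (Fin.snoc (e i) t) ∧
        nul (Fin.snoc (π i) ρ : Fin (m i + 1) → Eis) (Fin.snoc (e i) t) =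
          entry t (pairAt (π i) (e i) ρ) + 1) ∧
      -- the joint law
      PrimeLaw k r m π e := by
  refine ⟨fun m π e hg => ⟨(Pool.Agent.U972.Z.rankBound_of hk hg).1,
      (Pool.Agent.U972.Z.rankBound_of hk hg).2, fun hn => Pool.Agent.U972.Z.fields_of hk hg hn⟩,
    fun m X s hm hX hs C hC hCs e => Pool.Agent.U972.Z.tupleLaw_of hk hm hX hs C hC hCs e, ?_⟩
  intro ι m π e hπ hne hinj r hr
  have hinj1 : ∀ i, Function.Injective (π i) := by
    intro i a b hab
    have h := @hinj ⟨i, a⟩ ⟨i, b⟩ hab
    simpa using h
  refine ⟨?_, Pool.Agent.U972.Z.primeLaw_of hk hπ e hinj r hr⟩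
  intro ρ hρ i hρπ t ht h9
  exact ⟨Pool.Agent.U972.Z.good_snoc (hπ i) (hinj1 i) (hne i) ht hρ.1 hρ.2 hρπ h9,
    Pool.Agent.U972.Z.nul_new (π i) (e i) ht ρ⟩
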