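import Pool.Agent.Results.MP_f50388_nt.MajorityCubicExtensions
import Pool.Agent.U687.KT.Num

/-!
# The formula of Birch and Swinnerton-Dyer at the prime three for `y² + y = x³` over the cubic extensions
# `K(∛(D q^f))` of `K = ℚ(√-3)`: every `D`, variable prime `q`, exact densities, several `D` at once

`K` is the field of third roots of unity, `E : y² + y = x³`.  We fix different primes
`π_1, …, π_n = 1` modulo `3` of `𝓞 K`, and ARBITRARY elements `D_t = ω ^ i_t ∏ π_k ^ e_{t,k}`,
`t = 1, …, r`, of the group generated by `ω` and the `π_k` modulo cubes (every element of `K` whose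
valuation at `√-3` is divisible by three is of this form up to a cube, for suitable `π_k`).  They need not
be coprime, and nothing is assumed on the curves `E_{D_t} : y² + D_t y = x³`.  Let `m_t - 1` be the number
of the primes `π_k` that divide `D_t`, let `f_t = 1, 2`, and let `q = 1` modulo `3` run through the primes
of norm `1 + 3 a` modulo `9`, where `a` is such that no `D_t q^{f_t}` is both `1` modulo `3` and of norm
`1` modulo `9`.  Let `F_t = K(∛(D_t q^{f_t}))`.

* For ALL these `q` and all `t`: `L(E/F_t, s)` is entire, and the `3`-adic order of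
  `L(E/F_t, 1) / (L(E/K, 1) (2 A)²)` is at least `2 m_t - 5`, with equality if and only if
  `E_{D_t q^{f_t}}(K)` is finite and `Ш(E_{D_t q^{f_t}}/K)[3^∞] = 0` (`A` is the area of the lattice of the
  periods).  If `E(F_t)` is finite, `Ш(E/F_t)` contains `(ℤ/3)^s` for all `s ≤ 2 m_t - 8`.
* The proportion of the `q` such that for ALL `t` the order is the smallest possible one, `2 m_t - 5`, and
  moreover `E(F_t)` is finite, `Ш(E/F_t)[3^∞] = (ℤ/3)^s` with `2 m_t - 8 ≤ s ≤ 2 m_t + 16`,
  `L(E/F_t, 1) ≠ 0`, and the order of `Q(F_t)/Q(K)`, which the formula of Birch and Swinnerton-Dyer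
  predicts to be that of `#Ш(E/F_t)` up to `O(1)`, is between `2 m_t - 4` and `2 m_t - 1`, tends to the
  proportion of the `x` in the space of dimension `n` over the field with three elements for which all the
  graphs of the cubic residue symbols of the `D_t q^{f_t}` are connected, the new vertex `q` being joined
  to the `π_k` by `x`.
* ONE field: for every `D` and two of the three classes `a` this proportion is at least `(2/3)^n`.
* TWO fields: for ALL `D_1`, `D_2`, `f_1`, `f_2` there is a class `a` for which it is at least `3^{-n}`.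

So for every `D` the `3`-part of the formula for `E` over `K(∛(D q^f))` relative to `K` holds up to a bounded
power of three, with `Ш` of rank at least `2 m - 8`, for a positive proportion of the primes `q`.  The
starting file `MajorityCubicExtensions` treats the average over all `D` ordered by the norm; here `D` is
fixed and arbitrary and only one prime varies.  Method: the theorems of that file for one `D`, the joint law
of the cubic residue symbols of a variable prime, reciprocity, and the number of the nonsingular matrices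
among the diagonal perturbations of one matrix, and of two matrices simultaneously.
-/

set_option autoImplicit false

namespace Pool.Agent.Results.MP_f50388_nt.PrimeTwistsOfCubicFields

open NumberField Filter Topology
open Pool.Agent.Results.MP_f50388_nt.MajorityCubicExtensions
open scoped Classical

variable {K : Type} [Field K] [NumberField K]

/-- The `π_k` are different primes `1` modulo `3`; the cubic residue symbols of `π_k` modulo `π_j` and
of `ω` modulo `π_j` are `ω ^ χ j k` and `ω ^ η j`. -/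
def IsSystem (ω : 𝓞 K) (n : ℕ) (π : Fin n → 𝓞 K) (χ : Fin n → Fin n → ZMod 3)
    (η : Fin n → ZMod 3) : Prop :=
  (∀ k, Prime (π k) ∧ (3 : 𝓞 K) ∣ π k - 1) ∧
  (∀ k j, k ≠ j → ¬ π j ∣ π k ∧
    π j ∣ π k ^ (((Algebra.norm ℤ (π j)).natAbs - 1) / 3) - ω ^ (χ j k).val) ∧
  ∀ j, π j ∣ ω ^ (((Algebra.norm ℤ (π j)).natAbs - 1) / 3) - ω ^ (η j).val

/-- `ω ^ i ∏ π_k ^ e_k * q ^ f` -/
def element {n : ℕ} (ω : 𝓞 K) (π : Fin n → 𝓞 K) (i : ZMod 3) (e : Fin n → ZMod 3) (f : ZMod 3)
    (q : 𝓞 K) : 𝓞 K :=
  (ω ^ i.val * ∏ k, π k ^ (e k).val) * q ^ f.val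

/-- The Laplacian, over the field with three elements, of the graph with the vertices `k` such that
`e k ≠ 0` (values `v k`) and `ω` (value `t`) has no solutions besides the multiples of `v k = 1`,
`t = i`. -/
def IsConnected {n : ℕ} (e : Fin n → ZMod 3) (i : ZMod 3) (χ : Fin n → Fin n → ZMod 3)
    (η : Fin n → ZMod 3) : Prop :=
  ∀ (v : Fin n → ZMod 3) (t : ZMod 3),
    (∀ j, e j ≠ 0 → ∑ k, e k * χ j k * (v k - v j) + η j * (t - i * v j) = 0) →
    ∀ j, e j ≠ 0 → t = i * v j ∧ ∀ k, e k ≠ 0 → v k = v j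

/-- The symbols of the graph with the new vertex `0`, joined to the old vertices by `x`. -/
def addVertex {n : ℕ} (χ : Fin n → Fin n → ZMod 3) (x : Fin n → ZMod 3) :
    Fin (n + 1) → Fin (n + 1) → ZMod 3 :=
  Fin.cons (Fin.cons 0 x) fun j => Fin.cons (x j) (χ j)

/-- The share of the `x` for which the graphs of all the `D_t q^{f_t}` are connected, if the new vertex
`q` is joined to the old vertices by `x` and to `ω` by `a`. -/
noncomputable def share {n r : ℕ} (χ : Fin n → Fin n → ZMod 3) (η : Fin n → ZMod 3)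
    (i : Fin r → ZMod 3) (e : Fin r → Fin n → ZMod 3) (f : Fin r → ZMod 3) (a : ZMod 3) : ℝ :=
  (Nat.card {x : Fin n → ZMod 3 // ∀ t, IsConnected (Fin.cons (f t) (e t) : Fin (n + 1) → ZMod 3) (i t)
    (addVertex χ x) (Fin.cons a η : Fin (n + 1) → ZMod 3)} : ℝ) / 3 ^ n

/-- The primes `q = 1` modulo `3` of norm at most `X`, the norm being `1 + 3 a` modulo `9`. -/
def Primes (K : Type) [Field K] [NumberField K] (a : ZMod 3) (X : ℕ) : Set (𝓞 K) :=
  {q | Prime q ∧ (3 : 𝓞 K) ∣ q - 1 ∧ Algebra.norm ℤ q ≤ X ∧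
    Algebra.norm ℤ q % 9 = 1 + 3 * (a.val : ℤ)}

/-- There is an extension `F = K(∛D)` of degree `3`, and for all of them: `L(E/F, s)` is entire, the
`3`-adic order of `L(E/F, 1) / (L(E/K, 1) (2 A)²)` is at least `2 m - 5`, with equality if and only if
`E_D(K)` is finite and `Ш(E_D/K)[3^∞] = 0`; if `E(F)` is finite, `Ш(E/F)` contains `(ℤ/3)^s` for
`s ≤ 2 m - 8` and for `s ≤ m - 3`. -/
def Bounds (D : 𝓞 K) (m : ℕ) : Prop :=
  (∃ (F : Type) (_ : Field F) (_ : NumberField F) (_ : Algebra K F) (θ : F),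
    Module.finrank K F = 3 ∧ θ ^ 3 = algebraMap K F D) ∧
  ∀ (F : Type) [Field F] [NumberField F] [Algebra K F] (θ : F),
    Module.finrank K F = 3 → θ ^ 3 = algebraMap K F D →
      Law K F m (FiniteAndTrivial D) ∧
      (Finite (curve (1 : F)).toAffine.Point → ∀ s : ℕ, (s + 8 ≤ 2 * m ∨ s + 3 ≤ m) → LargeSha F s)

/-- The rank part and the `3`-part of the formula up to a bounded power, for all `F = K(∛D)` of degree
`3`. -/
def Holds (D : 𝓞 K) (m : ℕ) : Prop :=
  ∀ (F : Type) [Field F] [NumberField F] [Algebra K F] (θ : F),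
    Module.finrank K F = 3 → θ ^ 3 = algebraMap K F D → Formula K F m

/-- The number of the prime divisors of `D q ^ f`. -/
def numberWith {n : ℕ} (e : Fin n → ZMod 3) : ℕ := (Finset.univ.filter fun k => e k ≠ 0).card + 1

section proof

open Pool.Agent.U687.KT
open Pool.Agent.Y692.QS (Ei w nr)
open Pool.Agent.Y715.T.Rec (cs)
open Pool.Agent.Y715.T.RecG (Pq)

/-- the number of the prime divisors of `D q ^ f` -/
theorem number_eq {ω : 𝓞 K} (hω : IsUnit ω) {n : ℕ} {π : Fin n → 𝓞 K} (hπ : ∀ k, Prime (π k))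
    (hne : ∀ k l, k ≠ l → ¬ π l ∣ π k) {q : 𝓞 K} (hq : Prime q) (hq1 : ∀ k, ¬ π k ∣ q)
    (hq2 : ∀ k, ¬ q ∣ π k) (i f : ZMod 3) (hf : f ≠ 0) (e : Fin n → ZMod 3) :
    numberOfPrimes (element ω π i e f q) = numberWith e := by
  have h1 := card_primes (ω ^ i.val) (hω.pow _) (Fin.cons q π : Fin (n + 1) → 𝓞 K)
    (fun k => Fin.cases hq hπ k) (fun k l => by
      refine Fin.cases ?_ (fun k => ?_) k
      · refine Fin.cases (fun h => absurd rfl h) (fun l _ => hq1 l) l
      · refine Fin.cases (fun _ => hq2 k) (fun l h => hne k l fun h' => h (congrArg Fin.succ h')) l)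
    (Fin.cons f e : Fin (n + 1) → ZMod 3)
  have h2 : ω ^ i.val * ∏ k, (Fin.cons q π : Fin (n + 1) → 𝓞 K) k ^
      ((Fin.cons f e : Fin (n + 1) → ZMod 3) k).val = element ω π i e f q := by
    rw [Fin.prod_univ_succ]
    simp only [Fin.cons_zero, Fin.cons_succ]
    unfold element
    ring
  have h3 : (Finset.univ.filter fun k => (Fin.cons f e : Fin (n + 1) → ZMod 3) k ≠ 0).card =
      numberWith e := by
    unfold numberWith
    rw [Finset.card_filter, Fin.sum_univ_succ, Finset.card_filter]
    simp only [Fin.cons_zero, Fin.cons_succ]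
    rw [if_pos hf, add_comm]
  rw [h2, h3] at h1
  exact h1

end proof

open Pool.Agent.U687.KT in
/-- **The formula at three over the prime twists of cubic extensions.** -/
theorem result (K : Type) [Field K] [NumberField K] [IsCyclotomicExtension {3} ℚ K] :
    ∀ (ω : 𝓞 K) (n : ℕ) (π : Fin n → 𝓞 K) (χ : Fin n → Fin n → ZMod 3) (η : Fin n → ZMod 3),
      ω ^ 2 + ω + 1 = 0 → IsSystem ω n π χ η →
      (∀ (r : ℕ) (i : Fin r → ZMod 3) (e : Fin r → Fin n → ZMod 3) (f : Fin r → ZMod 3) (a : ZMod 3),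
        (∀ t, f t ≠ 0) → (∀ t, i t = 0 → ∑ k, e t k * η k + f t * a ≠ 0) →
        (∀ (X : ℕ) (q : 𝓞 K), q ∈ Primes K a X → (∀ k, ¬ π k ∣ q) →
          ∀ t, Bounds (element ω π (i t) (e t) (f t) q) (numberWith (e t))) ∧
        Tendsto (fun X : ℕ => ({q : 𝓞 K | q ∈ Primes K a X ∧
            ∀ t, FiniteAndTrivial (element ω π (i t) (e t) (f t) q) ∧
              Holds (element ω π (i t) (e t) (f t) q) (numberWith (e t))}.ncard : ℝ) / ((Primes K a X).ncard : ℝ))
          atTop (𝓝 (share χ η i e f a))) ∧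
      (∀ (i f a : ZMod 3) (e : Fin n → ZMod 3), f ≠ 0 → ∑ k, e k * η k + f * a ≠ 0 →
        (2 / 3 : ℝ) ^ n ≤ share (r := 1) χ η (fun _ => i) (fun _ => e) (fun _ => f) a) ∧
      (∀ (i : Fin 2 → ZMod 3) (e : Fin 2 → Fin n → ZMod 3) (f : Fin 2 → ZMod 3), (∀ t, f t ≠ 0) →
        ∃ a : ZMod 3, (∀ t, ∑ k, e t k * η k + f t * a ≠ 0) ∧
          (1 / 3 : ℝ) ^ n ≤ share χ η i e f a) := by
  intro ω n π χ η hω hsys
  obtain ⟨⟨j, hj⟩, -⟩ := Pool.Agent.Y455.CTK.jex K
  obtain ⟨j, hj, rfl⟩ := exists_j j hj hω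
  have hsys' : IsSys (j Pool.Agent.Y692.QS.w) n π χ η := hsys
  have hs : ∀ k l, k ≠ l → χ k l = χ l k := fun k l hkl => sys_symm j hj hsys' k l hkl
  obtain ⟨-, -, -, -, -, hfacts⟩ :=
    Pool.Agent.Results.MP_f50388_nt.MajorityCubicExtensions.result K
  have hωu : IsUnit (j Pool.Agent.Y692.QS.w) := by
    refine IsUnit.map j ?_
    rw [Pool.Agent.Y692.QS.isUnit_iff]
    decide
  refine ⟨fun r i e f a hf ha => ?_, fun i f a e hf ha => ?_, fun i e f hf => ?_⟩
  · have key : ∀ z : Pool.Agent.Y692.QS.Ei, Pool.Agent.Y715.T.RecG.Pq z →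
        (∀ k, j.symm (π k) ≠ z) →
        Pool.Agent.Y715.T.Rec.cs z Pool.Agent.Y692.QS.w = a → ∀ t,
        (Bounds (element (j Pool.Agent.Y692.QS.w) π (i t) (e t) (f t) (j z)) (numberWith (e t)) ∧
          (FiniteAndTrivial (element (j Pool.Agent.Y692.QS.w) π (i t) (e t) (f t) (j z)) →
            Holds (element (j Pool.Agent.Y692.QS.w) π (i t) (e t) (f t) (j z))
              (numberWith (e t)))) ∧
        (FiniteAndTrivial (element (j Pool.Agent.Y692.QS.w) π (i t) (e t) (f t) (j z)) ↔
          IsConnected (Fin.cons (f t) (e t) : Fin (n + 1) → ZMod 3) (i t)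
            (addVertex χ (fun k => Pool.Agent.Y715.T.Rec.cs z (j.symm (π k))))
            (Fin.cons a η : Fin (n + 1) → ZMod 3)) := by
      intro z hz hne haz t
      obtain ⟨h1, h2, h3⟩ := twist2 j hj hsys' (hf t) (ha t) hz hne haz
      obtain ⟨hp, -, -, -⟩ := sys_data j hj hsys'
      have hq : Prime (j z) := (MulEquiv.prime_iff (j : Pool.Agent.Y692.QS.Ei ≃* 𝓞 K)).2 hz.prime
      have hnum : numberOfPrimes (element (j Pool.Agent.Y692.QS.w) π (i t) (e t) (f t) (j z)) =
          numberWith (e t) := by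
        refine number_eq hωu (fun k => (hsys.1 k).1) (fun k l hkl => (hsys.2.1 k l hkl).1) hq
          (fun k hd => ?_) (fun k hd => ?_) (i t) (f t) (hf t) (e t)
        · have h4 := map_dvd j.symm hd
          rw [RingEquiv.symm_apply_apply] at h4
          exact hne k (eq_of_dvd (hp k) hz h4)
        · have h4 := map_dvd j.symm hd
          rw [RingEquiv.symm_apply_apply] at h4
          exact hne k (eq_of_dvd hz (hp k) h4).symm
      obtain ⟨h5, h6⟩ := hfacts _ h1 h2
      refine ⟨⟨⟨h5, fun F _ _ _ θ hd hθ => ?_⟩, fun ht F _ _ _ θ hd hθ => ?_⟩, h3⟩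
      · obtain ⟨-, h7, h8⟩ := h6 F θ hd hθ
        rw [← hnum]
        exact ⟨h7, h8⟩
      · rw [← hnum]
        exact (h6 F θ hd hθ).1 ht
    refine ⟨fun X q hq hne t => ?_, ?_⟩
    · obtain ⟨h1, h2, -, h4⟩ := hq
      obtain ⟨z, rfl⟩ := j.surjective q
      have hz : Pool.Agent.Y715.T.RecG.Pq z := by
        have := Pool.Agent.Y696.CTK.pq_symm j h1 h2
        rwa [RingEquiv.symm_apply_apply] at this
      refine (key z hz (fun k hk => hne k ?_) ?_ t).1.1
      · rw [← hk, RingEquiv.apply_symm_apply]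
      · refine (norm_class hz a).1 ?_
        rw [← hj]
        exact h4
    · refine law_K j hj hsys' a (fun x => ∀ t, IsConnected
        (Fin.cons (f t) (e t) : Fin (n + 1) → ZMod 3) (i t) (addVertex χ x)
          (Fin.cons a η : Fin (n + 1) → ZMod 3)) (fun q => ∀ t,
        FiniteAndTrivial (element (j Pool.Agent.Y692.QS.w) π (i t) (e t) (f t) q) ∧
          Holds (element (j Pool.Agent.Y692.QS.w) π (i t) (e t) (f t) q) (numberWith (e t))) ?_
      intro z hz hne haz
      refine forall_congr' fun t => ?_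
      obtain ⟨h1, h2⟩ := key z hz hne haz t
      rw [← h2]
      exact ⟨fun h => h.1, fun h => ⟨h, h1.2 h⟩⟩
  · have h1 := card_cs_ge (i := i) hs hf ha
    unfold share
    rw [div_pow]
    refine div_le_div_of_nonneg_right ?_ (by positivity)
    have h2 : Nat.card {x : Fin n → ZMod 3 // ∀ _ : Fin 1, IsConnected
        (Fin.cons f e : Fin (n + 1) → ZMod 3) i (addVertex χ x)
          (Fin.cons a η : Fin (n + 1) → ZMod 3)} =
        Nat.card {x : Fin n → ZMod 3 // CS (Fin.cons f e : Fin (n + 1) → ZMod 3) i (ex1 χ x)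
          (Fin.cons a η : Fin (n + 1) → ZMod 3)} :=
      Nat.card_congr (Equiv.subtypeEquivRight fun x => ⟨fun h => h 0, fun h _ => h⟩)
    rw [h2]
    exact_mod_cast h1
  · obtain ⟨a, hA, hB⟩ : ∃ a : ZMod 3, ∑ k, e 0 k * η k + f 0 * a ≠ 0 ∧
        ∑ k, e 1 k * η k + f 1 * a ≠ 0 := by
      have : ∀ s s' f f' : ZMod 3, f ≠ 0 → f' ≠ 0 → ∃ a : ZMod 3, s + f * a ≠ 0 ∧
        s' + f' * a ≠ 0 := by decide
      exact this _ _ _ _ (hf 0) (hf 1)
    refine ⟨a, fun t => ?_, ?_⟩
    · fin_cases t
      · exact hA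
      · exact hB
    · obtain ⟨x, h1, h2⟩ := exists_two (i := i 0) (i' := i 1) hs (hf 0) (hf 1) hA hB
      have hcard : 0 < Nat.card {x : Fin n → ZMod 3 // ∀ t, IsConnected
          (Fin.cons (f t) (e t) : Fin (n + 1) → ZMod 3) (i t) (addVertex χ x)
            (Fin.cons a η : Fin (n + 1) → ZMod 3)} := by
        have : Nonempty {x : Fin n → ZMod 3 // ∀ t, IsConnected
          (Fin.cons (f t) (e t) : Fin (n + 1) → ZMod 3) (i t) (addVertex χ x)
            (Fin.cons a η : Fin (n + 1) → ZMod 3)} := ⟨⟨x, fun t => by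
              fin_cases t
              · exact h1
              · exact h2⟩⟩
        exact Nat.card_pos
      unfold share
      rw [div_pow, one_pow]
      refine div_le_div_of_nonneg_right ?_ (by positivity)
      exact_mod_cast hcard

end Pool.Agent.Results.MP_f50388_nt.PrimeTwistsOfCubicFields
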