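import Pool.Agent.U115.TP.Ov
import Pool.Agent.U115.TP.Dn2
import Pool.Agent.Y682.XF.Uniq
import Pool.Agent.Y688.XD.Hecke
import Pool.Agent.Y461.XD.Apev
import Pool.Agent.Y758.XD.NZ
import Pool.Agent.Y109.XF.LF
import Pool.Agent.Y954.XF.LKD
import Pool.Agent.Y682.XF.Trd
import Pool.Agent.Y812.XF.HtKd
import Pool.Agent.Y44.XF.Prim
import Pool.Agent.Y44.XF.Mind
import Pool.Agent.Y641.XF.Tam
import Pool.Agent.Y813.XF.TamD
import Pool.Agent.Y665.XF.Tord
import Pool.Agent.Y614.XF.Perd
import Pool.Agent.Y532.XF.Ch
import Pool.Agent.Y686.XF.Reg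
import Pool.Agent.Y514.XF.Qval
import Pool.Agent.Y31.XF.Inz
import Pool.Agent.Y697.XF.Regu

/-!
# The 2-part of the Birch and Swinnerton-Dyer conjecture for the quadratic twists of `X_0(14)` by one
# or two split primes and any number of inert primes, over `ℚ` and over fields of odd degree

`E_D` is the quadratic twist by `D` of the modular curve `X_0(14)`.  A prime `q` is inert if it is `5`
modulo `8` and not a square modulo `7`, a prime `p` is split if it is `1` modulo `8` and a square modulo
`7` (it splits completely in the field of the points of order two of the curves isogenous to `X_0(14)`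
and of `√-1`).  `m` is any product of different inert primes, `m = 1` allowed.

The starting file `AllTwistsOddDegree` proves the 2-part of the conjecture for `E_D` if all the prime
divisors of `D` are inert, and compares `E_D` over `K` with `E_D` over `ℚ`.  Here `D = (∏ p i) m` has one
or two split prime divisors `p i`.  The matrix over the field with two elements attached to `p` and `m`
is the Laplacian of the quadratic symbols of the `p i`, plus the diagonal matrix with the entries `1` or
`0` according as `8` does not divide or divides the number of the points of `E_m` over `ℤ/(p i)`.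

* If the matrix is nonsingular, then over `ℚ` and over every field `K` of odd degree as in
  `AllTwistsOddDegree` (the layers of the cyclotomic `ℤ₃`-extension are examples) in which the prime
  divisors of `D` are inert: `L(E_D/K, s)` is entire and does not vanish at `1`, the group `E_D(K)` is
  finite, `Ш(E_D/K)[2^∞] = 0`, and the analytic order of the Tate-Shafarevich group is a rational number
  with 2-adic valuation zero, as the conjecture predicts.
* How often (natural densities, in all residue classes for moduli prime to `14` and the `p i`): for given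
  `p i` and `m` the matrix of `p` and `m q` is nonsingular for the expected proportion of the inert primes
  `q`; for given `m` the `1 x 1` matrix of `p` is nonsingular for one half of the split primes `p`; for given
  `m` and `p₁` the matrix of `p₁, p` is nonsingular for the proportion `3/4` or `1/4` of the split primes
  `p` according as `8` does not divide or divides the number of the points of `E_m` over `ℤ/p₁`.
  With the modulus `9` this gives twists for which the theorem holds over all the layers of the cyclotomic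
  `ℤ₃`-extension.

Proof.
* Algebraic side (`U115/TP/Loc`, `Sel`, `Bound`): the two isogenies of degree two; the elements of the two
  Selmer groups over `ℚ`, with everywhere locally trivial cocycles, are computed for any number of split
  primes with nonsingular matrix: they are the images of the points of order two.
* Analytic side: the exact power of two in the sum of the modular symbols with the quadratic character of
  `D` (`Y687`; for two split primes with Dedekind sums), the periods, Tamagawa numbers (each split prime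
  contributes `4`, each inert prime `2`) and torsion.
* Fields of odd degree: the comparison of `AllTwistsOddDegree`.
* Densities: `8` does not divide the number of the points of `E_m` over `ℤ/p` if and only if the Frobenius
  element at `p` acts nontrivially on `√m √((1 + √-7) / 2)`; Chebotarev's theorem for the field generated
  by square roots, a root of unity and `θ = √((1 + √-7) / 2)`; a commutator moves `θ` and fixes all the
  square roots and the roots of unity.
-/

set_option autoImplicit false

set_option linter.style.haveILetI false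

open NumberField NumberField.InfinitePlace IsDedekindDomain WeierstrassCurve MeasureTheory Filter
  Topology

namespace Pool.Agent.Results.MP_f50388_nt.SplitPrimesTwoPart

open scoped Classical

open Pool.Agent.TH841.NF.D (Sha)

open Pool.Agent.Y682 (NCl)

/-- The quadratic twist `E_D` of `X_0(14)` (`D = 1` modulo `4`), with its global minimal equation
`y² + x y + y = x³ + ((D - 1)/4) x² + ((9 D² - 1)/2) x - (23 D³ + 1)/4`.  It is isomorphic to
`Y² = X (X² + 13 D X + 128 D²)` by `X = 4 (x - D)`, `Y = 4 (2 y + x + 1)`. -/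
def twist (D : ℤ) : WeierstrassCurve ℤ :=
  ⟨1, (D - 1) / 4, 1, (9 * D ^ 2 - 1) / 2, -((23 * D ^ 3 + 1) / 4)⟩

/-- The curve given by the equation of `W` over the ring `R`. -/
abbrev base (W : WeierstrassCurve ℤ) (R : Type) [CommRing R] : WeierstrassCurve R :=
  W.map (Int.castRingHom R)

/-- The number of the affine points `(x, y)` over the ring `R`. -/
noncomputable def pts (W : WeierstrassCurve ℤ) (R : Type) [CommRing R] : ℕ :=
  Nat.card {P : R × R // (base W R).toAffine.Equation P.1 P.2}

section

variable {K : Type} [Field K] [NumberField K]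

/-- `a_v = N v + 1 - #W(k_v)`, the points over the residue field `k_v` counted with the point at
infinity. -/
noncomputable def a (W : WeierstrassCurve ℤ) (v : HeightOneSpectrum (𝓞 K)) : ℤ :=
  (Ideal.absNorm v.asIdeal : ℤ) - pts W (𝓞 K ⧸ v.asIdeal)

/-- The Euler factor of `L(W/K, s)` at `v` : `(1 - a_v N v^(-s) + N v^(1 - 2 s))⁻¹` if the
discriminant is a unit at `v`, and `(1 - a_v N v^(-s))⁻¹` otherwise. -/
noncomputable def factor (W : WeierstrassCurve ℤ) (s : ℂ) (v : HeightOneSpectrum (𝓞 K)) : ℂ :=
  (1 - (a W v : ℂ) * (Ideal.absNorm v.asIdeal : ℂ) ^ (-s) +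
    if ((W.Δ : ℤ) : 𝓞 K) ∈ v.asIdeal then 0 else (Ideal.absNorm v.asIdeal : ℂ) ^ (1 - 2 * s))⁻¹

/-- The equation is minimal at the finite place `v` of `K`: no change of variables over `K` that
keeps the coefficients integral at `v` decreases the valuation of the discriminant. -/
def MinimalAt (W : WeierstrassCurve ℤ) (v : HeightOneSpectrum (𝓞 K)) : Prop :=
  ∀ C : VariableChange K, v.valuation K (C • base W K).a₁ ≤ 1 →
    v.valuation K (C • base W K).a₂ ≤ 1 → v.valuation K (C • base W K).a₃ ≤ 1 →
    v.valuation K (C • base W K).a₄ ≤ 1 → v.valuation K (C • base W K).a₆ ≤ 1 →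
    v.valuation K (C • base W K).Δ ≤ v.valuation K (base W K).Δ

/-- `E⁰(K_v)`, the group of the points of `W` over the completion `K_v` with nonsingular reduction:
the points `(x, y)` where `x` is not integral, or one of the partial derivatives of
`y² + a₁ x y + a₃ y - x³ - a₂ x² - a₄ x - a₆` is a unit at `(x, y)`, and the point at infinity. -/
noncomputable def nonsing (W : WeierstrassCurve ℤ) (v : HeightOneSpectrum (𝓞 K)) :
    AddSubgroup (base W (v.adicCompletion K)).toAffine.Point :=
  AddSubgroup.closure {P | ∀ x y h, P = Affine.Point.some x y h →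
    1 < Valued.v x ∨ Valued.v (W.a₁ * y - (3 * x ^ 2 + 2 * W.a₂ * x + W.a₄)) = 1 ∨
      Valued.v (2 * y + W.a₁ * x + W.a₃) = 1}

/-- The Tamagawa number `c_v = [E(K_v) : E⁰(K_v)]` of a minimal equation. -/
noncomputable def c (W : WeierstrassCurve ℤ) (v : HeightOneSpectrum (𝓞 K)) : ℕ :=
  (nonsing W v).index

end

section

variable (K : Type) [Field K] [NumberField K]

/-- The product of the Tamagawa numbers. -/
noncomputable def Tam (W : WeierstrassCurve ℤ) : ℕ := ∏ᶠ v : HeightOneSpectrum (𝓞 K), c W v

/-- The 2-primary part of the Tate-Shafarevich group over `K`. -/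
noncomputable abbrev Sha2 (W : WeierstrassCurve ℤ) : AddSubgroup (Sha (base W K)) :=
  AddCommGroup.primaryComponent (Sha (base W K)) 2

/-- The torsion points over `K`. -/
def tors (W : WeierstrassCurve ℤ) : Set (base W K).toAffine.Point := {P | ∃ n : ℕ, 0 < n ∧ n • P = 0}

/-- The rank of the group of the points over `K`. -/
noncomputable def rank (W : WeierstrassCurve ℤ) : ℕ := Module.finrank ℤ (base W K).toAffine.Point

/-- `g` is a basis of the group of the points over `K` modulo torsion. -/
def IsBasis (W : WeierstrassCurve ℤ) {r : ℕ} (g : Fin r → (base W K).toAffine.Point) : Prop :=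
  ∀ P : (base W K).toAffine.Point, ∃! n : Fin r → ℤ, P - ∑ i, n i • g i ∈ tors K W

/-- `h` is the canonical height: `h(P) = lim 4^{-k} h_K(x(2^k P))`, where `h_K` is the logarithmic
height relative to `K`. -/
def IsHeight (W : WeierstrassCurve ℤ) (h : (base W K).toAffine.Point → ℝ) : Prop :=
  ∀ P : (base W K).toAffine.Point,
    Tendsto (fun k : ℕ => Height.logHeight ((2 ^ k : ℕ) • P).xRep / 4 ^ k) atTop (𝓝 (h P))

/-- The regulator, the determinant of `⟨g_i, g_j⟩ = (h(g_i + g_j) - h(g_i) - h(g_j)) / 2`. -/
noncomputable def reg (W : WeierstrassCurve ℤ) (h : (base W K).toAffine.Point → ℝ) {r : ℕ}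
    (g : Fin r → (base W K).toAffine.Point) : ℝ :=
  (Matrix.of fun i j : Fin r => (h (g i + g j) - h (g i) - h (g j)) / 2).det

end

/-- `4 x³ + b₂ x² + 2 b₄ x + b₆ = (2 y + a₁ x + a₃)²`, where `b₂ = a₁² + 4 a₂`,
`b₄ = 2 a₄ + a₁ a₃`, `b₆ = a₃² + 4 a₆`. -/
def cubic (W : WeierstrassCurve ℤ) {R : Type} [CommRing R] (x : R) : R :=
  4 * x ^ 3 + W.b₂ * x ^ 2 + 2 * W.b₄ * x + W.b₆

/-- `∫_{W(ℝ)} |ω|` with `ω = dx / (2 y + a₁ x + a₃)`, as an integral over `x`: two real points lie
over each `x` with `cubic x > 0`. -/
noncomputable def realPeriod (W : WeierstrassCurve ℤ) : ℝ :=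
  2 * ∫ x in {x : ℝ | 0 < cubic W x}, 1 / √(cubic W x)

/-- `2 ∫_{W(ℂ)} |ω ∧ ω̄|`, where `|ω ∧ ω̄| = du dv` in a local parameter `z = u + i v` with
`dz = ω`, as an integral over `x`: two points lie over a general `x`, and `|ω ∧ ω̄|` is the area
element of the plane of `x` divided by `|cubic x|`. -/
noncomputable def complexPeriod (W : WeierstrassCurve ℤ) : ℝ := 2 * (2 * ∫ x : ℂ, 1 / ‖cubic W x‖)

/-- The global period of an equation that is minimal at all finite places. -/
noncomputable def Omega (K : Type) [Field K] [NumberField K] (W : WeierstrassCurve ℤ) : ℝ :=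
  realPeriod W ^ nrRealPlaces K * complexPeriod W ^ nrComplexPlaces K

/-- The `L`-function of `W` over `K` is an entire function `L`, its order at `s = 1` is `n`, and `x` is
the analytic order of the Tate-Shafarevich group, that is
`L*(1) √|Δ_K| (#E(K)_tors)² / (Reg Ω Tam)`, where `L*(1)` is the leading coefficient at `1`: the value
of `#Ш` that is predicted by the conjecture.  (The three numbers in the denominator and the number of
the torsion points are positive.) -/
def IsAnalyticSha (K : Type) [Field K] [NumberField K] (W : WeierstrassCurve ℤ) (n : ℕ) (x : ℂ) :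
    Prop :=
  ∃ (L : ℂ → ℂ) (l : ℂ) (h : (base W K).toAffine.Point → ℝ) (r : ℕ)
    (g : Fin r → (base W K).toAffine.Point), Differentiable ℂ L ∧
    (∀ s : ℂ, 3 / 2 < s.re → HasProd (factor (K := K) W s) (L s)) ∧
    analyticOrderAt L 1 = n ∧ Tendsto (fun s => L s / (s - 1) ^ n) (𝓝[≠] 1) (𝓝 l) ∧
    IsHeight K W h ∧ IsBasis K W g ∧ 0 < reg K W h g ∧ 0 < Omega K W ∧ 0 < Tam K W ∧
    0 < Nat.card (tors K W) ∧
    x = l * ((√|(discr K : ℝ)| : ℝ) : ℂ) * (Nat.card (tors K W) : ℂ) ^ 2 /
      (((reg K W h g * Omega K W * Tam K W : ℝ)) : ℂ)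

/-- The 2-part of the conjecture of Birch and Swinnerton-Dyer for `W` over `K`: the `L`-function is
entire, its order at `s = 1` is the rank, the 2-primary part of the Tate-Shafarevich group is finite,
and the analytic order of the Tate-Shafarevich group is a rational number with the same 2-adic
valuation as the order of that 2-primary part. -/
def TwoPart (K : Type) [Field K] [NumberField K] (W : WeierstrassCurve ℤ) : Prop :=
  ∃ x : ℚ, x ≠ 0 ∧ IsAnalyticSha K W (rank K W) x ∧ Finite (Sha2 K W) ∧
    padicValRat 2 x = padicValNat 2 (Nat.card (Sha2 K W))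

/-- The 2-part of the conjecture for `W` over `K`, together with: the equation is minimal at all the
finite places, almost all the Tamagawa numbers are `1`, the rank is zero and the 2-primary part of the
Tate-Shafarevich group is trivial. -/
def RankZeroTwoPart (K : Type) [Field K] [NumberField K] (W : WeierstrassCurve ℤ) : Prop :=
  (∀ v : HeightOneSpectrum (𝓞 K), MinimalAt W v) ∧
    {v : HeightOneSpectrum (𝓞 K) | c W v ≠ 1}.Finite ∧
    TwoPart K W ∧ rank K W = 0 ∧ Nat.card (Sha2 K W) = 1

/-- inert primes: `5` modulo `8` and not squares modulo `7` -/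
def Inert (q : ℕ) : Prop := q.Prime ∧ q % 8 = 5 ∧ (q % 7 = 3 ∨ q % 7 = 5 ∨ q % 7 = 6)

/-- split primes: `1` modulo `8` and squares modulo `7` -/
def Split (p : ℕ) : Prop := p.Prime ∧ p % 8 = 1 ∧ (p % 7 = 1 ∨ p % 7 = 2 ∨ p % 7 = 4)

/-- `m` is a product of different inert primes -/
def InertProduct (m : ℕ) : Prop := Squarefree m ∧ ∀ q : ℕ, q.Prime → q ∣ m → Inert q

/-- the number of the points of `E_m` over `ℤ/p`, with the point at infinity -/
noncomputable def points (m p : ℕ) : ℕ := pts (twist m) (ZMod p) + 1

/-- `1` if `8` does not divide the number of the points of `E_m` over `ℤ/p`, and `0` otherwise -/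
noncomputable def g (m p : ℕ) : ZMod 2 := if 8 ∣ points m p then 0 else 1

/-- `0` if `p` is a square modulo `p'`, and `1` otherwise -/
noncomputable def symb (p p' : ℕ) : ZMod 2 := if IsSquare (p : ZMod p') then 0 else 1

/-- the Laplacian of the quadratic symbols of the primes `p i` -/
noncomputable def lap {k : ℕ} (p : Fin k → ℕ) : Matrix (Fin k) (Fin k) (ZMod 2) :=
  Matrix.of fun i j => if i = j then ∑ l, symb (p i) (p l) else symb (p i) (p j)

/-- the matrix attached to the split primes `p i` and to `m` is nonsingular -/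
def Good {k : ℕ} (m : ℕ) (p : Fin k → ℕ) : Prop :=
  (lap p + Matrix.diagonal fun i => g m (p i)).det ≠ 0

/-- The 2-part for `E_D` over all the fields `K` of odd degree contained in the `q`-th cyclotomic field,
`q` a power of a prime, prime to `14`, in which the primes dividing `D` are inert, where `q` is a power of
three, or `2` and `7` are inert in `K` and the narrow class number of `K` is odd. -/
def OverOdd (D : ℕ) : Prop :=
  ∀ (q : ℕ) [NeZero q] (M : Type) [Field M] [NumberField M] [IsCyclotomicExtension {q} ℚ M]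
    (K : IntermediateField ℚ M), IsPrimePow q → q.Coprime 14 → Odd (Module.finrank ℚ K) →
    (3 ∣ q ∨ ((Ideal.span {((2 : ℕ) : 𝓞 K)}).IsPrime ∧
      (Ideal.span {((7 : ℕ) : 𝓞 K)}).IsPrime ∧ Odd (Nat.card (NCl K)))) →
    (∀ l : ℕ, l.Prime → l ∣ D → ¬ l ∣ q ∧ (Ideal.span {((l : ℕ) : 𝓞 K)}).IsPrime) →
    RankZeroTwoPart K (twist D)

/-- The 2-part for `E_D` over all the layers of the cyclotomic `ℤ₃`-extension of `ℚ`: the subfields `K` of
odd degree of the fields of the roots of unity of order a power of three. -/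
def OverTower (D : ℕ) : Prop :=
  ∀ (n : ℕ) (M : Type) [Field M] [NumberField M] [IsCyclotomicExtension {3 ^ (n + 1)} ℚ M]
    (K : IntermediateField ℚ M), Odd (Module.finrank ℚ K) → RankZeroTwoPart K (twist D)

/-- the natural density of the set `T` relative to the set `U` is `δ` -/
def Density (T U : ℕ → Prop) (δ : ℝ) : Prop :=
  Tendsto (fun X : ℕ => (((Finset.Icc 1 X).filter T).card : ℝ) /
    (((Finset.Icc 1 X).filter U).card : ℝ)) atTop (𝓝 δ)

/-- all the parts -/
theorem parts : Pool.Agent.Y682.XF.Parts where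
  hecke := Pool.Agent.Y688.XD.s_hecke
  apev := Pool.Agent.Y461.XD.s_apev
  nz := Pool.Agent.Y758.XD.s_nz
  lkd := Pool.Agent.Y954.XF.s_lkd Pool.Agent.Y109.XF.t_LF
  trd := Pool.Agent.Y682.XF.s_trd
  kd := Pool.Agent.Y812.XF.t_KD
  prim := Pool.Agent.Y44.XF.s_prim
  mind := Pool.Agent.Y44.XF.s_mind
  tg := Pool.Agent.Y641.XF.s_tg
  t7 := Pool.Agent.Y641.XF.s_t7
  t2 := Pool.Agent.Y641.XF.s_t2
  ti := Pool.Agent.Y641.XF.s_ti
  ts := Pool.Agent.Y641.XF.s_ts
  tamd := Pool.Agent.Y813.XF.s_tamd
  tord := Pool.Agent.Y665.XF.t_TORD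
  perd := Pool.Agent.Y614.XF.perd
  ht := Pool.Agent.Y812.XF.t_HT
  ch := Pool.Agent.Y532.XF.t_ch
  reg := Pool.Agent.Y686.XF.t_REG
  qval := Pool.Agent.Y514.XF.s_qval
  inz := Pool.Agent.Y31.XF.s_inz


theorem prod_eq {m : ℕ} (h : InertProduct m) : ∏ q ∈ m.primeFactors, q = m :=
  Nat.prod_primeFactors_of_squarefree h.1

theorem all_inert {m : ℕ} (h : InertProduct m) :
    ∀ q ∈ m.primeFactors, Pool.Agent.Y687.Inert q := fun q hq =>
  h.2 q (Nat.prime_of_mem_primeFactors hq) (Nat.dvd_of_mem_primeFactors hq)

theorem m_ne {m : ℕ} (h : InertProduct m) : m ≠ 0 := h.1.ne_zero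

theorem m_mod {m : ℕ} (h : InertProduct m) : m % 4 = 1 := by
  have := Pool.Agent.Y687.prod_mod_four (all_inert h)
  rwa [prod_eq h] at this

theorem notMem_iff {m q : ℕ} (h : InertProduct m) (hq : Inert q) : q ∉ m.primeFactors ↔ ¬ q ∣ m := by
  rw [Nat.mem_primeFactors]
  constructor
  · exact fun h1 h2 => h1 ⟨hq.1, h2, m_ne h⟩
  · exact fun h1 h2 => h1 h2.2.1

theorem insertProd {m q : ℕ} (h : InertProduct m) (hq : Inert q) (hqm : ¬ q ∣ m) :
    InertProduct (q * m) := by
  refine ⟨?_, ?_⟩
  · rw [Nat.squarefree_mul_iff]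
    exact ⟨(Nat.Prime.coprime_iff_not_dvd hq.1).2 hqm, hq.1.squarefree, h.1⟩
  · intro l hl hd
    rcases hl.dvd_mul.1 hd with h1 | h1
    · rw [(Nat.prime_dvd_prime_iff_eq hl hq.1).1 h1]
      exact hq
    · exact h.2 l hl h1

theorem points_eq {m p : ℕ} (h : InertProduct m) (hp : Split p) :
    points m p = Pool.Agent.Y687.NN m p := by
  haveI : Fact p.Prime := ⟨hp.1⟩
  have h8 := hp.2.1
  have h1 := Pool.Agent.U115.TP.pts_eq (m := m) (p := p) (by omega) (by rintro rfl; omega) (m_mod h)
  exact congrArg (· + 1) h1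

theorem symb_self {p : ℕ} : symb p p = 0 := by
  unfold symb
  rw [ZMod.natCast_self, if_pos (IsSquare.zero)]

theorem z2 (x : ZMod 2) : x = 0 ∨ x = 1 := by
  fin_cases x
  · exact Or.inl rfl
  · exact Or.inr rfl

theorem g_ne {m p : ℕ} : g m p = 1 ↔ ¬ 8 ∣ points m p := by
  unfold g
  split_ifs with h <;> simp [h]

theorem g_eq {m p : ℕ} (h : InertProduct m) (hp : Split p) : g m p = Pool.Agent.U115.TP.gg m p := by
  unfold g Pool.Agent.U115.TP.gg
  rw [points_eq h hp]

theorem symb_comm {p₁ p₂ : ℕ} (h1 : Split p₁) (h2 : Split p₂) : symb p₁ p₂ = symb p₂ p₁ := by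
  haveI : Fact p₁.Prime := ⟨h1.1⟩
  haveI : Fact p₂.Prime := ⟨h2.1⟩
  unfold symb
  have h := ZMod.exists_sq_eq_prime_iff_of_mod_four_eq_one (p := p₁) (q := p₂)
    (by have := h1.2.1; omega) (by have := h2.2.1; omega)
  by_cases h3 : IsSquare (p₁ : ZMod p₂)
  · rw [if_pos h3, if_pos (h.2 h3)]
  · rw [if_neg h3, if_neg fun h4 => h3 (h.1 h4)]

theorem det1 {m : ℕ} (p : Fin 1 → ℕ) : Good m p ↔ ¬ 8 ∣ points m (p 0) := by
  unfold Good lap
  rw [Matrix.det_fin_one]
  simp only [Matrix.add_apply, Matrix.of_apply, if_true, Matrix.diagonal_apply_eq,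
    Finset.univ_unique, Fin.default_eq_zero, Fin.isValue, Finset.sum_singleton, symb_self, zero_add]
  rw [← g_ne]
  rcases z2 (g m (p 0)) with h | h <;> rw [h] <;> decide

theorem detG {p : Fin 2 → ℕ} (h1 : Split (p 0)) (h2 : Split (p 1)) (u : Fin 2 → ZMod 2) :
    (lap p + Matrix.diagonal u).det =
      u 0 * u 1 + symb (p 0) (p 1) * (u 0 + u 1) := by
  unfold lap
  rw [Matrix.det_fin_two]
  simp only [Matrix.add_apply, Matrix.of_apply, if_true, Matrix.diagonal_apply_eq,
    Fin.isValue, Fin.sum_univ_two, symb_self, zero_add, add_zero]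
  rw [if_neg (by decide), if_neg (by decide), Matrix.diagonal_apply_ne _ (by decide),
    Matrix.diagonal_apply_ne _ (by decide), symb_comm h2 h1]
  generalize symb (p 0) (p 1) = s
  generalize u 0 = a
  generalize u 1 = b
  revert s a b
  decide

theorem det2 {m : ℕ} {p : Fin 2 → ℕ} (h1 : Split (p 0)) (h2 : Split (p 1)) :
    Good m p ↔ (¬ 8 ∣ points m (p 0) ∧ ¬ 8 ∣ points m (p 1)) ∨
      (¬ IsSquare (p 0 : ZMod (p 1)) ∧ (¬ 8 ∣ points m (p 0) ∨ ¬ 8 ∣ points m (p 1))) := by
  unfold Good
  rw [detG h1 h2, ← g_ne, ← g_ne]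
  have e : ¬ IsSquare (p 0 : ZMod (p 1)) ↔ symb (p 0) (p 1) = 1 := by
    unfold symb
    split_ifs with h <;> simp [h]
  rw [e]
  generalize symb (p 0) (p 1) = s
  generalize g m (p 0) = a
  generalize g m (p 1) = b
  revert s a b
  decide

/-- the data on the twist -/
theorem data {k : ℕ} (hk : k = 1 ∨ k = 2) {p : Fin k → ℕ} (hinj : Function.Injective p)
    (hp : ∀ i, Split (p i)) {m : ℕ} (hm : InertProduct m) (hg : Good m p) :
    Pool.Agent.U115.TP.Dt ((∏ i, p i) * m) := by
  rcases hk with rfl | rfl
  · have h := (det1 p).1 hg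
    rw [points_eq hm (hp 0)] at h
    have h1 := Pool.Agent.U115.TP.dt_one parts (p := p 0) (S := m.primeFactors) (hp 0)
      (all_inert hm) (by rw [prod_eq hm]; exact h)
    rw [prod_eq hm] at h1
    rw [show ∏ i, p i = p 0 by simp]
    exact h1
  · have hne : p 0 ≠ p 1 := fun h => absurd (hinj h) (by decide)
    have h := (det2 (hp 0) (hp 1)).1 hg
    rw [points_eq hm (hp 0), points_eq hm (hp 1)] at h
    have h1 := Pool.Agent.U115.TP.dt_two parts (S := m.primeFactors) hne (hp 0) (hp 1)
      (all_inert hm) (by rw [prod_eq hm]; exact h)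
    rw [prod_eq hm] at h1
    rw [Fin.prod_univ_two]
    exact h1

theorem cop56 {N : ℕ} (hN : N.Coprime 14) : Nat.Coprime 56 N := by
  rw [Nat.coprime_comm, show (56 : ℕ) = 2 ^ 2 * 14 by norm_num]
  exact Nat.Coprime.mul_right (Nat.Coprime.pow_right 2
    (Nat.Coprime.coprime_dvd_right (by norm_num) hN)) hN

theorem pos_of_cop {N : ℕ} (hN : N.Coprime 14) : 0 < N := by
  rcases Nat.eq_zero_or_pos N with rfl | h
  · norm_num at hN
  · exact h

/-- **The 2-part of the conjecture of Birch and Swinnerton-Dyer for the twists of `X_0(14)` by one or two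
split primes and any number of inert primes, over `ℚ` and over fields of odd degree.**

(1) If the matrix of `p` and `m` is nonsingular, `D = (∏ p i) m`, then the 2-part holds for `E_D` over
`ℚ`, over the fields `K` of odd degree of prime power conductor `q` in which the primes dividing `D`
are inert (if `q` is not a power of three, `2` and `7` are also supposed to be inert and the narrow class
number to be odd), and, if the primes dividing `D` are not `±1` modulo `9`, over all the layers of the
cyclotomic `ℤ₃`-extension of `ℚ`; the rank is zero and the 2-primary part of the Tate-Shafarevich group is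
trivial.
(2) The density of the inert primes `q` for which the matrix of `p` and `m q` is nonsingular.
(3) The density of the split primes `p` for which the matrix of `p` and `m` is nonsingular.
(4) The density of the split primes `p` for which the matrix of `p₁, p` and `m` is nonsingular. -/
theorem result :
    (∀ (k : ℕ) (p : Fin k → ℕ) (m : ℕ), (k = 1 ∨ k = 2) → Function.Injective p →
      (∀ i, Split (p i)) → InertProduct m → Good m p →
      RankZeroTwoPart ℚ (twist (((∏ i, p i) * m : ℕ) : ℤ)) ∧ OverOdd ((∏ i, p i) * m) ∧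
      ((∀ l : ℕ, l.Prime → l ∣ (∏ i, p i) * m → l % 9 ≠ 1 ∧ l % 9 ≠ 8) →
        OverTower ((∏ i, p i) * m))) ∧
    (∀ (k : ℕ) (p : Fin k → ℕ) (m N a : ℕ), Function.Injective p → (∀ i, Split (p i)) →
      InertProduct m → N.Coprime 14 → (∀ i, ¬ p i ∣ N) → a.Coprime N →
      Density (fun q => Inert q ∧ q ≡ a [MOD N] ∧ ¬ q ∣ m ∧ Good (q * m) p)
        (fun q => Inert q ∧ q ≡ a [MOD N])
        ((Nat.card {u : Fin k → ZMod 2 // (lap p + Matrix.diagonal u).det ≠ 0} : ℝ) / 2 ^ k)) ∧
    (∀ m N a : ℕ, InertProduct m → N.Coprime 14 → a.Coprime N →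
      Density (fun p => Split p ∧ p ≡ a [MOD N] ∧ Good m ![p]) (fun p => Split p ∧ p ≡ a [MOD N])
        (1 / 2)) ∧
    (∀ p₁ m N a : ℕ, Split p₁ → InertProduct m → N.Coprime 14 → ¬ p₁ ∣ N → a.Coprime N →
      Density (fun p => Split p ∧ p ≡ a [MOD N] ∧ p ≠ p₁ ∧ Good m ![p₁, p])
        (fun p => Split p ∧ p ≡ a [MOD N]) (if 8 ∣ points m p₁ then 1 / 4 else 3 / 4)) := by
  refine ⟨?_, ?_, ?_, ?_⟩
  · intro k p m hk hinj hp hm hg
    have hD := data hk hinj hp hm hg
    refine ⟨hD.overQ parts Pool.Agent.Y697.XF.t_REGU, ?_, ?_⟩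
    · intro q _ M _ _ _ K hq hco hodd hcl hl
      exact (hD.overK parts Pool.Agent.Y697.XF.t_REGU q hq hco M K hodd hcl hl).1
    · intro h9 n M _ _ _ K hodd
      exact hD.over3 parts Pool.Agent.Y697.XF.t_REGU h9 n M K hodd
  · intro k p m N a hinj hp hm hN hpN ha
    have key := Pool.Agent.U115.TP.dens_inert p hinj hp (all_inert hm) (pos_of_cop hN) (cop56 hN) ha
      hpN (fun v => (lap p + Matrix.diagonal v).det ≠ 0)
      (fun q => Inert q ∧ q ≡ a [MOD N] ∧ ¬ q ∣ m ∧ Good (q * m) p)
      (fun q => Inert q ∧ q ≡ a [MOD N]) ?_ (fun q => Iff.rfl)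
    · unfold Density
      convert key
    · intro q
      refine and_congr_right fun hq => and_congr_right fun _ => ?_
      rw [← notMem_iff hm hq]
      refine and_congr_right fun hqm => ?_
      have hqm' := (notMem_iff hm hq).1 hqm
      have e : (fun i => Pool.Agent.U115.TP.gg (∏ r ∈ insert q m.primeFactors, r) (p i)) =
          fun i => g (q * m) (p i) := by
        funext i
        rw [Finset.prod_insert hqm, prod_eq hm, g_eq (insertProd hm hq hqm') (hp i)]
      rw [e]
      exact Iff.rfl
  · intro m N a hm hN ha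
    have key := Pool.Agent.U115.TP.dens_split (k := 0) (fun i => i.elim0) (fun i => i.elim0)
      (fun i => i.elim0) (all_inert hm) (pos_of_cop hN) (cop56 hN) ha (fun i => i.elim0)
      (fun v => v.1 = 1)
      (fun p => Split p ∧ p ≡ a [MOD N] ∧ Good m ![p]) (fun p => Split p ∧ p ≡ a [MOD N])
      ?_ (fun q => Iff.rfl)
    · have hc : Nat.card {v : ZMod 2 × (Fin 0 → ZMod 2) // v.1 = 1} = 1 := by
        rw [Nat.card_eq_fintype_card, Fintype.card_subtype]
        decide
      rw [hc] at key
      norm_num at key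
      unfold Density
      norm_num
      convert key
    · intro p
      refine and_congr_right fun hp => and_congr_right fun _ => ?_
      rw [det1, ← g_ne, prod_eq hm]
      have e : g m ((![p] : Fin 1 → ℕ) 0) = Pool.Agent.U115.TP.gg m p := g_eq hm hp
      rw [e]
      exact ⟨fun h => ⟨fun i => i.elim0, h⟩, fun h => h.2⟩
  · intro p₁ m N a hp1 hm hN hpN ha
    have key := Pool.Agent.U115.TP.dens_split (k := 1) (fun _ => p₁) (fun _ _ _ => Subsingleton.elim _ _)
      (fun _ => hp1) (all_inert hm) (pos_of_cop hN) (cop56 hN) ha (fun _ => hpN)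
      (fun v => g m p₁ * v.1 + v.2 0 * (g m p₁ + v.1) ≠ 0)
      (fun p => Split p ∧ p ≡ a [MOD N] ∧ p ≠ p₁ ∧ Good m ![p₁, p])
      (fun p => Split p ∧ p ≡ a [MOD N]) ?_ (fun q => Iff.rfl)
    · have hc : ∀ x : ZMod 2, Nat.card {v : ZMod 2 × (Fin 1 → ZMod 2) //
          x * v.1 + v.2 0 * (x + v.1) ≠ 0} = if x = 0 then 1 else 3 := by
        intro x
        rw [Nat.card_eq_fintype_card, Fintype.card_subtype]
        revert x
        decide
      rw [hc] at key
      have e : ((if g m p₁ = 0 then 1 else 3 : ℕ) : ℝ) / 2 ^ (1 + 1) =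
          if 8 ∣ points m p₁ then 1 / 4 else 3 / 4 := by
        unfold g
        by_cases h8 : 8 ∣ points m p₁
        · rw [if_pos h8, if_pos h8, if_pos rfl]
          norm_num
        · rw [if_neg h8, if_neg h8, if_neg (by decide)]
          norm_num
      rw [e] at key
      unfold Density
      convert key
    · intro p
      refine and_congr_right fun hp => and_congr_right fun _ => ?_
      have h0 : Split ((![p₁, p] : Fin 2 → ℕ) 0) := hp1
      have h1 : Split ((![p₁, p] : Fin 2 → ℕ) 1) := hp
      unfold Good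
      rw [detG h0 h1, prod_eq hm]
      have e0 : g m ((![p₁, p] : Fin 2 → ℕ) 0) = g m p₁ := rfl
      have e1 : g m ((![p₁, p] : Fin 2 → ℕ) 1) = Pool.Agent.U115.TP.gg m p := g_eq hm hp
      rw [e0, e1]
      exact ⟨fun h => ⟨fun _ => h.1, h.2⟩, fun h => ⟨h.1 0, h.2⟩⟩

end Pool.Agent.Results.MP_f50388_nt.SplitPrimesTwoPart
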